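import Mathlib

set_option autoImplicit false

open Cardinal Set MeasureTheory

namespace Pool.Agent.Results.MP_414bc7_lc.SierpinskiReduction

/-- `A ^ 0 = A`, `A ^ 1 = ` complement of `A` (`false` is `0`, `true` is `1`). -/
def cell {Ω : Type} (A : Set Ω) (b : Bool) : Set Ω := if b then Aᶜ else A

/-- A barely independent family of subsets of `Ω` (for `Ω` of cardinality `ℵ₁`). -/
structure BarelyIndependent {Ω : Type} (I : Set (Set Ω)) : Prop where
  infinite : I.Infinite
  uncountable : ∀ A ∈ I, ¬ A.Countable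
  finite_part : ∀ F ⊆ I, F.Finite → ∀ h : Set Ω → Bool,
    ¬ (⋂ A ∈ F, cell A (h A)).Countable
  infinite_part : ∀ C ⊆ I, C.Countable → C.Infinite → ∀ h : Set Ω → Bool,
    (⋂ A ∈ C, cell A (h A)).Countable

/-- A sequence of points of Cantor space such that every infinite partial function `ℕ ⇀ 2` is
extended by only countably many of them. -/
def Scattering {Ω : Type} (r : Ω → ℕ → Bool) : Prop :=
  ∀ D : Set ℕ, D.Infinite → ∀ g : ℕ → Bool, {l | ∀ n ∈ D, r l n = g n}.Countable

/-- A Sierpinski set of reals. -/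
def SierpinskiSet (S : Set ℝ) : Prop :=
  ¬ S.Countable ∧ ∀ N : Set ℝ, volume N = 0 → (S ∩ N).Countable

lemma mem_cell {Ω : Type} (A : Set Ω) (b : Bool) (x : Ω) :
    x ∈ cell A b ↔ (b = true ↔ x ∉ A) := by
  unfold cell
  cases b <;> simp

/-! ### From a barely independent family to a scattering sequence -/

lemma scattering_of_barely {Ω : Type} {I : Set (Set Ω)} (hI : BarelyIndependent I) :
    ∃ r : Ω → ℕ → Bool, Scattering r := by
  classical
  let a : ℕ ↪ I := hI.infinite.natEmbedding
  refine ⟨fun l n => decide (l ∉ (a n : Set Ω)), ?_⟩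
  intro D hD g
  have hinj : Function.Injective (fun n => (a n : Set Ω)) := fun m n h =>
    a.injective (Subtype.ext h)
  let C : Set (Set Ω) := (fun n => (a n : Set Ω)) '' D
  have hC : C.Infinite := hD.image hinj.injOn
  have hCI : C ⊆ I := by
    rintro _ ⟨n, _, rfl⟩
    exact (a n).2
  have hCc : C.Countable := (D.to_countable).image _
  have key := hI.infinite_part C hCI hCc hC
    (fun A => if h : ∃ n, (a n : Set Ω) = A then g h.choose else false)
  refine key.mono ?_
  intro l hl
  simp only [mem_iInter]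
  rintro A ⟨n, hn, rfl⟩
  have hex : ∃ m, (a m : Set Ω) = (a n : Set Ω) := ⟨n, rfl⟩
  have hch : hex.choose = n := hinj hex.choose_spec
  rw [mem_cell]
  simp only [hex, dif_pos, hch]
  have := hl n hn
  rw [← this]
  simp

/-! ### Coherent finite-to-one functions -/

section Coherent

variable {Ω : Type} [LinearOrder Ω] [WellFoundedLT Ω]

/-- the extension property at one point -/
def GoodAt (x : Ω) (prev : ∀ y, y < x → Ω → ℕ) (f : Ω → ℕ) : Prop :=
  (∀ k : ℕ, {z | z ≤ x ∧ f z ≤ k}.Finite) ∧
  ∀ y (h : y < x), {z | z ≤ y ∧ prev y h z ≠ f z}.Finite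

open Classical in
/-- the recursively chosen system -/
noncomputable def coh : Ω → Ω → ℕ :=
  (wellFounded_lt (α := Ω)).fix (C := fun _ => Ω → ℕ)
    (fun x prev => if h : ∃ f, GoodAt x prev f then h.choose else fun _ => 0)

open Classical in
lemma coh_eq (x : Ω) : coh x =
    if h : ∃ f, GoodAt x (fun y _ => coh y) f then h.choose else fun _ => 0 := by
  unfold coh
  rw [WellFounded.fix_eq]

lemma exists_good (hc : ∀ x : Ω, (Iio x).Countable) (x : Ω)
    (ih : ∀ y < x, GoodAt y (fun z _ => coh z) (coh y)) :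
    ∃ f, GoodAt x (fun y _ => coh y) f := by
  classical
  by_cases hne : (Iio x).Nonempty
  · -- a monotone cofinal sequence
    obtain ⟨b, hb⟩ := (hc x).exists_eq_range hne
    have hbx : ∀ n, b n < x := fun n => by
      have : b n ∈ Iio x := by rw [hb]; exact mem_range_self n
      exact this
    let a : ℕ → Ω := fun n => (Finset.range (n+1)).sup' ⟨0, by simp⟩ b
    have hax : ∀ n, a n < x := fun n => by
      rw [Finset.sup'_lt_iff]
      intro i _
      exact hbx i
    have ham : Monotone a := by
      intro m n hmn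
      apply Finset.sup'_le
      intro i hi
      apply Finset.le_sup' (f := b)
      simp only [Finset.mem_range] at hi ⊢
      omega
    have hba : ∀ n, b n ≤ a n := fun n => Finset.le_sup' (f := b) (by simp)
    have hex : ∀ y < x, ∃ n, y ≤ a n := fun y hy => by
      have : y ∈ range b := by rw [← hb]; exact hy
      obtain ⟨n, rfl⟩ := this
      exact ⟨n, hba n⟩
    -- the index of a point
    let N : Ω → ℕ := fun z => if h : ∃ n, z ≤ a n then Nat.find h else 0
    have hN : ∀ z < x, z ≤ a (N z) := fun z hz => by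
      simp only [N, hex z hz, dif_pos]
      exact Nat.find_spec (hex z hz)
    have hNle : ∀ z n, z ≤ a n → N z ≤ n := fun z n h => by
      have : ∃ n, z ≤ a n := ⟨n, h⟩
      simp only [N, this, dif_pos]
      exact Nat.find_min' _ h
    let f : Ω → ℕ := fun z => if z < x then max (coh (a (N z)) z) (N z) else 0
    have hcohle : ∀ m n, m ≤ n → {z | z ≤ a m ∧ coh (a m) z ≠ coh (a n) z}.Finite := by
      intro m n hmn
      rcases (ham hmn).lt_or_eq with h | h
      · exact (ih (a n) (hax n)).2 (a m) h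
      · rw [h]; simp
    refine ⟨f, ?_, ?_⟩
    · intro k
      have : {z | z ≤ x ∧ f z ≤ k} ⊆ {x} ∪ ⋃ n ∈ Finset.range (k+1), {z | z ≤ a n ∧ coh (a n) z ≤ k} := by
        rintro z ⟨hz1, hz2⟩
        rcases hz1.lt_or_eq with h | h
        · right
          simp only [f, h, if_true, max_le_iff] at hz2
          simp only [Finset.mem_range, mem_iUnion]
          refine ⟨N z, by omega, hN z h, hz2.1⟩
        · left; exact h
      refine Set.Finite.subset ?_ this
      refine (finite_singleton x).union ?_
      refine Set.Finite.biUnion (Finset.finite_toSet _) ?_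
      intro n _
      exact (ih (a n) (hax n)).1 k
    · intro y hy
      obtain ⟨n, hn⟩ := hex y hy
      -- compare with a n
      have h1 : {z | z ≤ a n ∧ coh (a n) z ≠ f z}.Finite := by
        have : {z | z ≤ a n ∧ coh (a n) z ≠ f z} ⊆
            (⋃ m ∈ Finset.range (n+1), {z | z ≤ a m ∧ coh (a m) z ≤ n}) ∪
            (⋃ m ∈ Finset.range (n+1), {z | z ≤ a m ∧ coh (a m) z ≠ coh (a n) z}) := by
          rintro z ⟨hz1, hz2⟩
          have hzx : z < x := lt_of_le_of_lt hz1 (hax n)
          have hNz := hNle z n hz1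
          have hNz' := hN z hzx
          by_cases h : coh (a (N z)) z = coh (a n) z
          · left
            simp only [Finset.mem_range, mem_iUnion]
            refine ⟨N z, by omega, hNz', ?_⟩
            by_contra hlt
            apply hz2
            simp only [f, hzx, if_true]
            rw [max_eq_left (by omega), h]
          · right
            simp only [Finset.mem_range, mem_iUnion]
            exact ⟨N z, by omega, hNz', h⟩
        refine Set.Finite.subset ?_ this
        refine Set.Finite.union (Set.Finite.biUnion (Finset.finite_toSet _) ?_)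
          (Set.Finite.biUnion (Finset.finite_toSet _) ?_)
        · intro m _
          exact (ih (a m) (hax m)).1 n
        · intro m hm
          simp only [Finset.coe_range, mem_Iio] at hm
          exact hcohle m n (by omega)
      have h2 : {z | z ≤ y ∧ coh y z ≠ coh (a n) z}.Finite := by
        rcases hn.lt_or_eq with h | h
        · exact (ih (a n) (hax n)).2 y h
        · rw [h]; simp
      refine (h1.union h2).subset ?_
      rintro z ⟨hz1, hz2⟩
      by_cases h : coh y z = coh (a n) z
      · left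
        exact ⟨hz1.trans hn, by rw [← h]; exact hz2⟩
      · right
        exact ⟨hz1, h⟩
  · refine ⟨fun _ => 0, ?_, ?_⟩
    · intro k
      refine (finite_singleton x).subset ?_
      rintro z ⟨hz, _⟩
      rcases hz.lt_or_eq with h | h
      · exact absurd ⟨z, h⟩ hne
      · exact h
    · intro y hy
      exact absurd ⟨y, hy⟩ hne

lemma coh_good (hc : ∀ x : Ω, (Iio x).Countable) (x : Ω) :
    GoodAt x (fun y _ => coh y) (coh x) := by
  induction x using WellFoundedLT.induction with
  | ind x ih =>
    have hex := exists_good hc x ih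
    rw [coh_eq x, dif_pos hex]
    exact hex.choose_spec

end Coherent

/-! ### From a scattering sequence to a barely independent family of cardinality `ℵ₁` -/

section Main

variable {Ω : Type} [LinearOrder Ω] [WellFoundedLT Ω]

/-- value of the modified row -/
noncomputable def row (r : Ω → ℕ → Bool) (sg : Ω → ℕ → Finset Ω) (p : Ω × ℕ) (x : Ω) : Bool :=
  open Classical in xor (r p.1 (coh p.1 x)) (decide (x ∈ sg p.1 p.2))

lemma exists_sg (hc : ∀ x : Ω, (Iio x).Countable) :
    ∃ sg : Ω → ℕ → Finset Ω, ∀ l, ∀ s : Finset Ω, ((↑s : Set Ω) ⊆ Iio l) → ∃ n, sg l n = s := by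
  classical
  have : ∀ l, ∃ f : ℕ → Finset Ω, ∀ s : Finset Ω, ((↑s : Set Ω) ⊆ Iio l) → ∃ n, f n = s := by
    intro l
    have hcs : {s : Finset Ω | (↑s : Set Ω) ⊆ Iio l}.Countable := by
      have h1 := Set.countable_ofPred_finite_subset (hc l)
      have h2 : Set.InjOn (fun s : Finset Ω => (↑s : Set Ω))
          {s : Finset Ω | (↑s : Set Ω) ⊆ Iio l} := fun s _ t _ h => Finset.coe_injective h
      refine Set.MapsTo.countable_of_injOn (t := {t | t.Finite ∧ t ⊆ Iio l}) ?_ h2 h1
      intro s hs
      exact ⟨s.finite_toSet, hs⟩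
    obtain ⟨f, hf⟩ := hcs.exists_eq_range ⟨∅, by simp⟩
    refine ⟨f, ?_⟩
    intro s hs
    have : s ∈ range f := by rw [← hf]; exact hs
    exact this
  choose f hf using this
  exact ⟨f, hf⟩

lemma rows_finite (hc : ∀ x : Ω, (Iio x).Countable) (hunc : ¬ (univ : Set Ω).Countable)
    (r : Ω → ℕ → Bool) (sg : Ω → ℕ → Finset Ω)
    (hsg : ∀ l, ∀ s : Finset Ω, ((↑s : Set Ω) ⊆ Iio l) → ∃ n, sg l n = s)
    (F : Finset Ω) (h : Ω → Bool) :
    ¬ {p : Ω × ℕ | ∀ x ∈ F, row r sg p x = h x}.Countable := by
  classical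
  intro hcount
  apply hunc
  -- bound of F
  have hproj : (Prod.fst '' {p : Ω × ℕ | ∀ x ∈ F, row r sg p x = h x}).Countable :=
    hcount.image _
  have hF : (⋃ x ∈ F, Iic x).Countable := by
    refine Set.Countable.biUnion (F.countable_toSet) ?_
    intro x _
    have : Iic x = insert x (Iio x) := by
      ext y; simp [le_iff_eq_or_lt]
    rw [this]
    exact (hc x).insert x
  refine (hproj.union hF).mono ?_
  intro l _
  by_cases hl : ∀ x ∈ F, x < l
  · left
    let s : Finset Ω := F.filter (fun x => r l (coh l x) ≠ h x)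
    have hs : (↑s : Set Ω) ⊆ Iio l := by
      intro x hx
      have : x ∈ F := by
        have := hx
        simp only [s, Finset.coe_filter, mem_ofPred_eq] at this
        exact this.1
      exact hl x this
    obtain ⟨n, hn⟩ := hsg l s hs
    refine ⟨(l, n), ?_, rfl⟩
    intro x hx
    simp only [row, hn, s, Finset.mem_filter, hx, true_and]
    cases h1 : r l (coh l x) <;> cases h2 : h x <;> simp
  · right
    push Not at hl
    obtain ⟨x, hx, hlx⟩ := hl
    simp only [mem_iUnion]
    exact ⟨x, hx, hlx⟩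

lemma rows_infinite (hc : ∀ x : Ω, (Iio x).Countable)
    (r : Ω → ℕ → Bool) (hr : Scattering r) (sg : Ω → ℕ → Finset Ω)
    (X : Set Ω) (hX : X.Infinite) (g : Ω) (hXg : ∀ x ∈ X, x ≤ g) (h : Ω → Bool) :
    {p : Ω × ℕ | ∀ x ∈ X, row r sg p x = h x}.Countable := by
  classical
  have hIic : (Iic g).Countable := by
    have : Iic g = insert g (Iio g) := by
      ext y; simp [le_iff_eq_or_lt]
    rw [this]
    exact (hc g).insert g
  -- the set of first coordinates is countable
  let L : Set Ω → Set Ω := fun E => {l | ∀ x ∈ X \ E, r l (coh g x) = h x}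
  have hL : ∀ E : Set Ω, E.Finite → (L E).Countable := by
    intro E hE
    by_cases hne : (L E).Nonempty
    · obtain ⟨l0, hl0⟩ := hne
      have hD : (coh g '' (X \ E)).Infinite := by
        intro hfin
        obtain ⟨k, hk⟩ := hfin.bddAbove
        have : X \ E ⊆ {z | z ≤ g ∧ coh g z ≤ k} := by
          intro x hx
          exact ⟨hXg x hx.1, hk ⟨x, hx, rfl⟩⟩
        have h1 : (X \ E).Finite := ((coh_good hc g).1 k).subset this
        exact hX ((h1.union hE).subset (by
          intro x hx
          by_cases hxE : x ∈ E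
          · right; exact hxE
          · left; exact ⟨hx, hxE⟩))
      refine (hr _ hD (r l0)).mono ?_
      rintro l hl n ⟨x, hx, rfl⟩
      rw [hl x hx, hl0 x hx]
    · rw [not_nonempty_iff_eq_empty] at hne
      rw [hne]; exact countable_empty
  have hproj : (Prod.fst '' {p : Ω × ℕ | ∀ x ∈ X, row r sg p x = h x}).Countable := by
    have hcU : (⋃ E ∈ {t : Set Ω | t.Finite ∧ t ⊆ Iic g}, L E).Countable := by
      refine Set.Countable.biUnion (Set.countable_ofPred_finite_subset hIic) ?_
      intro E hE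
      exact hL E hE.1
    refine (hIic.union hcU).mono ?_
    rintro _ ⟨⟨l, n⟩, hp, rfl⟩
    by_cases hl : l ≤ g
    · left; exact hl
    · right
      push Not at hl
      simp only [mem_iUnion]
      let E : Set Ω := ({z | z ≤ g ∧ coh g z ≠ coh l z} ∪ (↑(sg l n) : Set Ω)) ∩ Iic g
      have hEf : E.Finite := by
        refine Set.Finite.subset ?_ inter_subset_left
        exact ((coh_good hc l).2 g hl).union (sg l n).finite_toSet
      refine ⟨E, ⟨hEf, inter_subset_right⟩, ?_⟩
      intro x hx
      have hxg := hXg x hx.1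
      have hxE := hx.2
      have h1 : coh g x = coh l x := by
        by_contra hne
        exact hxE ⟨Or.inl ⟨hxg, hne⟩, hxg⟩
      have h2 : x ∉ sg l n := fun hmem => hxE ⟨Or.inr hmem, hxg⟩
      have := hp x hx.1
      simp only [row, h2] at this
      rw [h1]
      simpa using this
  -- fibres are countable
  have : {p : Ω × ℕ | ∀ x ∈ X, row r sg p x = h x} ⊆
      (Prod.fst '' {p : Ω × ℕ | ∀ x ∈ X, row r sg p x = h x}) ×ˢ (univ : Set ℕ) := by
    intro p hp
    exact ⟨⟨p, hp, rfl⟩, mem_univ _⟩
  exact (hproj.prod (to_countable univ)).mono this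

lemma barely_of_scattering_aux (hc : ∀ x : Ω, (Iio x).Countable) (hcard : #Ω = ℵ₁)
    (r : Ω → ℕ → Bool) (hr : Scattering r) :
    ∃ I : Set (Set Ω), BarelyIndependent I ∧ #I = ℵ₁ := by
  classical
  obtain ⟨sg, hsg⟩ := exists_sg hc
  have hunc : ¬ (univ : Set Ω).Countable := by
    rw [countable_univ_iff, ← Cardinal.mk_le_aleph0_iff, hcard]
    exact not_le.mpr Cardinal.aleph0_lt_aleph_one
  have hprod : #(Ω × ℕ) = #Ω := by
    rw [Cardinal.mk_prod, Cardinal.mk_nat, hcard]
    simp
  obtain ⟨φ⟩ := Cardinal.eq.mp hprod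
  let A : Ω → Set Ω := fun x => {w | row r sg (φ.symm w) x = false}
  have hcell : ∀ (x : Ω) (b : Bool) (w : Ω), w ∈ cell (A x) b ↔ row r sg (φ.symm w) x = b := by
    intro x b w
    rw [mem_cell]
    simp only [A, mem_ofPred_eq]
    cases b <;> simp
  -- finite intersections
  have hfin : ∀ (F : Finset Ω) (h : Ω → Bool), ¬ (⋂ x ∈ F, cell (A x) (h x)).Countable := by
    intro F h hcount
    apply rows_finite hc hunc r sg hsg F h
    have : {p : Ω × ℕ | ∀ x ∈ F, row r sg p x = h x} ⊆ φ ⁻¹' (⋂ x ∈ F, cell (A x) (h x)) := by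
      intro p hp
      simp only [mem_preimage, mem_iInter]
      intro x hx
      rw [hcell, φ.symm_apply_apply]
      exact hp x hx
    exact (hcount.preimage φ.injective).mono this
  have hinj : Function.Injective A := by
    intro x y hxy
    by_contra hne
    apply hfin {x, y} (fun z => decide (z = x))
    have : (⋂ z ∈ ({x, y} : Finset Ω), cell (A z) (decide (z = x))) = ∅ := by
      ext w
      simp only [Finset.mem_insert, Finset.mem_singleton, mem_iInter, mem_empty_iff_false,
        iff_false, not_forall]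
      by_cases hw : w ∈ A x
      · refine ⟨x, Or.inl rfl, ?_⟩
        rw [mem_cell]; simp [hw]
      · refine ⟨y, Or.inr rfl, ?_⟩
        rw [mem_cell]
        have hyx : y ≠ x := fun h => hne h.symm
        rw [hxy] at hw
        simp [hyx, hw]
    rw [this]; exact countable_empty
  refine ⟨range A, ⟨?_, ?_, ?_, ?_⟩, ?_⟩
  · have : Infinite Ω := by
      rw [Cardinal.infinite_iff, hcard]
      exact Cardinal.aleph0_lt_aleph_one.le
    exact Set.infinite_range_of_injective hinj
  · rintro _ ⟨x, rfl⟩ hcount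
    apply hfin {x} (fun _ => false)
    have : (⋂ z ∈ ({x} : Finset Ω), cell (A z) false) = A x := by
      simp [cell]
    rw [this]; exact hcount
  · intro F hF hFf h
    obtain ⟨G, hG⟩ : ∃ G : Finset Ω, F = A '' (↑G : Set Ω) := by
      have h1 : (A ⁻¹' F).Finite := hFf.preimage hinj.injOn
      refine ⟨h1.toFinset, ?_⟩
      rw [h1.coe_toFinset, image_preimage_eq_of_subset hF]
    have := hfin G (fun x => h (A x))
    rw [hG, biInter_image]
    exact this
  · intro C hC hCc hCi h
    let X : Set Ω := A ⁻¹' C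
    have hCX : C = A '' X := by rw [image_preimage_eq_of_subset hC]
    have hXi : X.Infinite := by
      intro hXf
      rw [hCX] at hCi
      exact hCi (hXf.image A)
    have hXc : X.Countable := by
      refine Set.MapsTo.countable_of_injOn (f := A) (t := C) ?_ hinj.injOn hCc
      intro x hx; exact hx
    -- a bound for X
    obtain ⟨g, hg⟩ : ∃ g, ∀ x ∈ X, x ≤ g := by
      by_contra hno
      push Not at hno
      apply hunc
      have : (univ : Set Ω) ⊆ ⋃ x ∈ X, Iio x := by
        intro g _
        obtain ⟨x, hx, hgx⟩ := hno g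
        simp only [mem_iUnion]
        exact ⟨x, hx, hgx⟩
      exact (Set.Countable.biUnion hXc (fun x _ => hc x)).mono this
    have key := rows_infinite hc r hr sg X hXi g hg (fun x => h (A x))
    rw [hCX, biInter_image]
    have : (⋂ x ∈ X, cell (A x) (h (A x))) ⊆
        φ '' {p : Ω × ℕ | ∀ x ∈ X, row r sg p x = h (A x)} := by
      intro w hw
      refine ⟨φ.symm w, ?_, φ.apply_symm_apply w⟩
      intro x hx
      simp only [mem_iInter] at hw
      exact (hcell _ _ _).mp (hw x hx)
    exact (key.image φ).mono this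
  · rw [Cardinal.mk_range_eq A hinj, hcard]

end Main

lemma barely_of_scattering {Ω : Type} (hcard : #Ω = ℵ₁)
    (r : Ω → ℕ → Bool) (hr : Scattering r) :
    ∃ I : Set (Set Ω), BarelyIndependent I ∧ #I = ℵ₁ := by
  classical
  obtain ⟨s, hs, hord⟩ := Cardinal.exists_ord_eq Ω
  let _ : LinearOrder Ω := linearOrderOfSTO s
  have _ : WellFoundedLT Ω := ⟨hs.wf⟩
  have hc : ∀ x : Ω, (Iio x).Countable := by
    intro x
    rw [← Cardinal.le_aleph0_iff_set_countable]
    have h1 : #(Iio x) < #Ω := by
      have := Cardinal.mk_Iio_lt x hord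
      exact this
    rw [hcard] at h1
    rw [← Cardinal.succ_aleph0] at h1
    exact Order.lt_succ_iff.mp h1
  exact barely_of_scattering_aux hc hcard r hr

/-! ### Sierpinski sets -/

/-- binary digits of a real -/
noncomputable def dig : ℕ → ℝ → Bool
  | 0, x => decide (1/2 ≤ x)
  | n+1, x => if 1/2 ≤ x then dig n (2*x-1) else dig n (2*x)

/-- the part of the unit interval whose digits extend a given partial function -/
def ext (D : Set ℕ) (g : ℕ → Bool) : Set ℝ := {x | x ∈ Ico (0:ℝ) 1 ∧ ∀ n ∈ D, dig n x = g n}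

lemma ext_subset (D : Set ℕ) (g : ℕ → Bool) :
    ext D g ⊆ {x | x < 1/2 ∧ (0 ∈ D → g 0 = false) ∧ 2 * x ∈ ext {n | n+1 ∈ D} (fun n => g (n+1))} ∪
      {x | 1/2 ≤ x ∧ (0 ∈ D → g 0 = true) ∧ 2 * x - 1 ∈ ext {n | n+1 ∈ D} (fun n => g (n+1))} := by
  rintro x ⟨⟨hx0, hx1⟩, hx⟩
  by_cases h : 1/2 ≤ x
  · right
    refine ⟨h, ?_, ⟨by linarith, by linarith⟩, ?_⟩
    · intro h0
      have := hx 0 h0
      simp only [dig, h, decide_true] at this
      exact this.symm
    · intro n hn
      have := hx (n+1) hn
      simp only [dig, h, if_true] at this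
      exact this
  · left
    refine ⟨by linarith, ?_, ⟨by linarith, by linarith⟩, ?_⟩
    · intro h0
      have := hx 0 h0
      simp only [dig, h, decide_false] at this
      exact this.symm
    · intro n hn
      have := hx (n+1) hn
      simp only [dig, h, if_false] at this
      exact this

lemma vol_half (E : Set ℝ) : volume {x : ℝ | 2 * x ∈ E} = (1/2) * volume E := by
  have := Real.volume_preimage_mul_left (a := (2:ℝ)) (by norm_num) E
  have h2 : ENNReal.ofReal |(2:ℝ)⁻¹| = 1/2 := by
    rw [abs_of_pos (by norm_num), ENNReal.ofReal_inv_of_pos (by norm_num)]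
    simp
  rw [h2] at this
  exact this

lemma vol_half' (E : Set ℝ) : volume {x : ℝ | 2 * x - 1 ∈ E} = (1/2) * volume E := by
  have h1 : {x : ℝ | 2 * x - 1 ∈ E} = {x : ℝ | 2 * x ∈ (fun y => y - 1) ⁻¹' E} := rfl
  rw [h1, vol_half]
  congr 1
  simp only [sub_eq_add_neg]
  exact measure_preimage_add_right volume (-1) E

lemma vol_ext_le (D : Set ℕ) (g : ℕ → Bool) :
    volume (ext D g) ≤ volume (ext {n | n+1 ∈ D} (fun n => g (n+1))) := by
  set E := ext {n | n+1 ∈ D} (fun n => g (n+1)) with hE
  calc volume (ext D g) ≤ volume ({x : ℝ | 2 * x ∈ E} ∪ {x : ℝ | 2 * x - 1 ∈ E}) := by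
        apply measure_mono
        refine (ext_subset D g).trans ?_
        apply union_subset_union
        · rintro x ⟨_, _, h⟩; exact h
        · rintro x ⟨_, _, h⟩; exact h
    _ ≤ (1/2) * volume E + (1/2) * volume E := by
        refine (measure_union_le _ _).trans ?_
        rw [vol_half, vol_half']
    _ = volume E := by
        rw [← add_mul, ENNReal.add_halves, one_mul]

lemma vol_ext_zero_le (D : Set ℕ) (g : ℕ → Bool) (h0 : 0 ∈ D) :
    volume (ext D g) ≤ (1/2) * volume (ext {n | n+1 ∈ D} (fun n => g (n+1))) := by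
  set E := ext {n | n+1 ∈ D} (fun n => g (n+1)) with hE
  cases hg : g 0 with
  | false =>
    rw [← vol_half]
    apply measure_mono
    refine (ext_subset D g).trans ?_
    rintro x (⟨_, _, h⟩ | ⟨_, h, _⟩)
    · exact h
    · rw [hg] at h; exact absurd (h h0) (by simp)
  | true =>
    rw [← vol_half']
    apply measure_mono
    refine (ext_subset D g).trans ?_
    rintro x (⟨_, h, _⟩ | ⟨_, _, h⟩)
    · rw [hg] at h; exact absurd (h h0) (by simp)
    · exact h

lemma shift_infinite {D : Set ℕ} (hD : D.Infinite) : {n | n+1 ∈ D}.Infinite := by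
  intro hfin
  apply hD
  refine ((hfin.image (· + 1)).union (finite_singleton 0)).subset ?_
  intro n hn
  rcases n with _ | n
  · right; rfl
  · left; exact ⟨n, hn, rfl⟩

lemma vol_ext_pow (k : ℕ) : ∀ (m : ℕ) (D : Set ℕ) (g : ℕ → Bool), D.Infinite → m ∈ D →
    volume (ext D g) ≤ (1/2)^k := by
  induction k with
  | zero =>
    intro m D g _ _
    rw [pow_zero]
    calc volume (ext D g) ≤ volume (Ico (0:ℝ) 1) := measure_mono (fun x hx => hx.1)
      _ = 1 := by simp
  | succ k ih =>
    intro m
    induction m with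
    | zero =>
      intro D g hD h0
      refine (vol_ext_zero_le D g h0).trans ?_
      rw [pow_succ']
      gcongr
      obtain ⟨m, hm⟩ := (shift_infinite hD).nonempty
      exact ih m _ _ (shift_infinite hD) hm
    | succ m ihm =>
      intro D g hD hm
      exact (vol_ext_le D g).trans (ihm _ _ (shift_infinite hD) hm)

lemma vol_ext_zero (D : Set ℕ) (g : ℕ → Bool) (hD : D.Infinite) : volume (ext D g) = 0 := by
  obtain ⟨m, hm⟩ := hD.nonempty
  have h1 : ∀ k : ℕ, volume (ext D g) ≤ (1/2)^k := fun k => vol_ext_pow k m D g hD hm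
  have h2 : Filter.Tendsto (fun k : ℕ => ((1/2 : ENNReal))^k) Filter.atTop (nhds 0) :=
    ENNReal.tendsto_pow_atTop_nhds_zero_of_lt_one (by
      rw [one_div]; exact ENNReal.inv_lt_one.mpr (by norm_num))
  exact le_antisymm (ge_of_tendsto' h2 h1) bot_le

lemma scattering_of_sierpinski {Ω : Type} (hcard : #Ω = ℵ₁) {S : Set ℝ} (hS : SierpinskiSet S) :
    ∃ r : Ω → ℕ → Bool, Scattering r := by
  classical
  -- some unit interval meets S in an uncountable set
  obtain ⟨m, hm⟩ : ∃ m : ℤ, ¬ (S ∩ Ico (m:ℝ) (m+1)).Countable := by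
    by_contra hno
    push Not at hno
    apply hS.1
    have : S ⊆ ⋃ m : ℤ, S ∩ Ico (m:ℝ) (m+1) := by
      intro x hx
      simp only [mem_iUnion]
      exact ⟨⌊x⌋, hx, Int.floor_le x, Int.lt_floor_add_one x⟩
    exact (countable_iUnion hno).mono this
  have hle : #Ω ≤ #(S ∩ Ico (m:ℝ) (m+1) : Set ℝ) := by
    rw [hcard, ← Cardinal.succ_aleph0, Order.succ_le_iff]
    by_contra hlt
    exact hm (Cardinal.le_aleph0_iff_set_countable.mp (not_lt.mp hlt))
  obtain ⟨f⟩ := hle
  refine ⟨fun l n => dig n ((f l : ℝ) - m), ?_⟩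
  intro D hD g
  have hvol : volume ((fun y => y - (m:ℝ)) ⁻¹' (ext D g)) = 0 := by
    simp only [sub_eq_add_neg]
    rw [measure_preimage_add_right, vol_ext_zero D g hD]
  have hc := hS.2 _ hvol
  have hinj : Function.Injective (fun l => (f l : ℝ)) := fun a b h => f.injective (Subtype.ext h)
  refine (hc.preimage hinj).mono ?_
  intro l hl
  refine ⟨(f l).2.1, ?_⟩
  have h2 := (f l).2.2
  refine ⟨⟨by linarith [h2.1], by linarith [h2.2]⟩, ?_⟩
  exact hl

/-- **Theorem.** Let `Ω` be a set of cardinality `ℵ₁`. -/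
theorem result (Ω : Type) (hΩ : #Ω = ℵ₁) :
    ((∃ I : Set (Set Ω), BarelyIndependent I) ↔
      ∃ I : Set (Set Ω), BarelyIndependent I ∧ #I = ℵ₁) ∧
    ((∃ I : Set (Set Ω), BarelyIndependent I) ↔ ∃ r : Ω → ℕ → Bool, Scattering r) ∧
    ((∃ S : Set ℝ, SierpinskiSet S) → ∃ I : Set (Set Ω), BarelyIndependent I ∧ #I = ℵ₁) := by
  refine ⟨⟨?_, ?_⟩, ⟨?_, ?_⟩, ?_⟩
  · rintro ⟨I, hI⟩
    obtain ⟨r, hr⟩ := scattering_of_barely hI
    exact barely_of_scattering hΩ r hr
  · rintro ⟨I, hI, _⟩
    exact ⟨I, hI⟩
  · rintro ⟨I, hI⟩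
    exact scattering_of_barely hI
  · rintro ⟨r, hr⟩
    obtain ⟨I, hI, _⟩ := barely_of_scattering hΩ r hr
    exact ⟨I, hI⟩
  · rintro ⟨S, hS⟩
    obtain ⟨r, hr⟩ := scattering_of_sierpinski hΩ hS
    exact barely_of_scattering hΩ r hr

end Pool.Agent.Results.MP_414bc7_lc.SierpinskiReduction
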